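import Mathlib
import Pool.Agent.Helper79.ZF.OrdExt

/-!
# The failure of (S) is consistent relative to ZF alone

Every countable model of ZF has an end extension with the same ordinals which is a model of ZF and has
an amenable group with a non-amenable subgroup.  In particular, if there is a model of ZF, then there
is a model of ZF with an amenable group that has a non-amenable subgroup.
-/

open Pool.Agent.Helper79.ZF

theorem Pool.Agent.Results.MP_52363e_lc.Consistency.result :
    (∀ (M : Type) [Membership M M] [Countable M], ZFModel M →
      ∃ (N : Type) (_ : Membership N N), ZFModel N ∧ ¬ StatementS N ∧ ∃ ι : M → N, OrdEndExt ι) ∧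
    ((∃ (M : Type) (_ : Membership M M), ZFModel M) →
      ∃ (N : Type) (_ : Membership N N), ZFModel N ∧ ¬ StatementS N) :=
  ⟨fun M _ _ h => have := h; Pool.Agent.Helper79.ZF.main_ext (M := M), Pool.Agent.Helper79.ZF.main⟩
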